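import Pool.Agent.N160.SN.GLC
import Pool.Agent.N916.AM.Low
import Pool.Agent.N818.IL.Stm

/-!
# Project IL (helper818), part GLM: the Gaussian law in a class modulo `M`

Adaptation by helper427 of the files by helper160 and helper558 for the class `11` modulo `24`.
-/

set_option autoImplicit false

open scoped Classical

namespace Pool.Agent.N427.IL

open Finset Complex Filter Topology ProbabilityTheory

open Pool.Agent.W262.RK (PS)
open Pool.Agent.R421.NR (yT yT_pow lt_yT loglog_yT yT_large big_ll)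
open Pool.Agent.R421.EK (mem_PS' exp_I_lip)
open Pool.Agent.N160.SN (Af Gf Gf_le cls_sum card_sq_mul card_large pt_cmp ll_cmp gauss_cont)
open Pool.Agent.N818.IL (mn Law S_GLM)

/-- the squarefree integers of the class `r` modulo `q` -/
noncomputable def SQ (q r X : ℕ) : Finset ℕ := (Icc 1 X).filter fun n => Squarefree n ∧ n % q = r

/-- no square of a prime at most `D` -/
noncomputable def TD (q r D X : ℕ) : Finset ℕ :=
  (Icc 1 X).filter fun n => n % q = r ∧ ∀ p : ℕ, p.Prime → p ≤ D → ¬ p ^ 2 ∣ n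

lemma SQ_sub_TD (q r D X : ℕ) : SQ q r X ⊆ TD q r D X := by
  intro n hn
  unfold SQ at hn
  rw [mem_filter] at hn
  unfold TD
  rw [mem_filter]
  refine ⟨hn.1, hn.2.2, fun p hp _ hd => ?_⟩
  rw [pow_two] at hd
  exact Nat.squarefree_iff_prime_squarefree.1 hn.2.1 p hp hd

lemma card_TD_sdiff (q r D X : ℕ) (hD : 1 ≤ D) : (((TD q r D X) \ SQ q r X).card : ℝ) ≤ X / D := by
  have hsub : (TD q r D X) \ SQ q r X ⊆ (Ioc D X).biUnion fun k => (Icc 1 X).filter fun n => k ^ 2 ∣ n := by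
    intro n hn
    rw [Finset.mem_sdiff] at hn
    obtain ⟨h1, h2⟩ := hn
    unfold TD at h1
    unfold SQ at h2
    rw [mem_filter] at h1 h2
    obtain ⟨h3, h4, h5⟩ := h1
    have h6 : ¬ Squarefree n := fun h => h2 ⟨h3, h, h4⟩
    rw [Nat.squarefree_iff_prime_squarefree] at h6
    push Not at h6
    obtain ⟨p, hp, hd⟩ := h6
    rw [← pow_two] at hd
    have h7 : D < p := by
      by_contra hcon
      exact h5 p hp (by omega) hd
    rw [mem_Icc] at h3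
    have h8 : p ≤ X := (Nat.le_self_pow two_ne_zero p).trans ((Nat.le_of_dvd (by omega) hd).trans h3.2)
    rw [mem_biUnion]
    exact ⟨p, mem_Ioc.2 ⟨h7, h8⟩, mem_filter.2 ⟨mem_Icc.2 h3, hd⟩⟩
  have h1 : (((TD q r D X) \ SQ q r X).card : ℝ) ≤
      ∑ k ∈ Ioc D X, (((Icc 1 X).filter fun n => k ^ 2 ∣ n).card : ℝ) := by
    exact_mod_cast (card_le_card hsub).trans card_biUnion_le
  refine h1.trans ((sum_le_sum fun k _ => card_sq_mul X k).trans ?_)
  rw [← mul_sum]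
  rcases le_total D X with hDX | hDX
  · have h2 := sum_Ioc_inv_sq_le_sub (α := ℝ) (k := D) (n := X) (by omega) hDX
    have h3 : (0 : ℝ) ≤ (X : ℝ)⁻¹ := by positivity
    rw [div_eq_mul_inv]
    exact mul_le_mul_of_nonneg_left (by linarith) (Nat.cast_nonneg X)
  · rw [Ioc_eq_empty_of_le hDX, sum_empty, mul_zero]
    positivity

/-- the sum over the squarefree integers -/
lemma sq_sum (q r₀ : ℕ) (hq : 8 ≤ q) (hr₀ : 1 ≤ r₀) (w : ℕ → ℝ) (c : ℝ) (hc : 1 ≤ c) (hwc : ∀ p, 2 * |w p| ≤ c) (v : ℝ) (hv : 0 ≤ v)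
    (hw2 : ∀ z : ℕ, 10 ≤ z → q ≤ z → ∃ C : ℝ, 0 ≤ C ∧ ∀ y : ℕ, z < y →
      |∑ p ∈ PS z y, w p ^ 2 * (1 / (p : ℝ)) - v * ∑ p ∈ PS z y, 1 / (p : ℝ)| ≤ C)
    (ε : ℝ) (hε : 0 < ε) : ∃ z X0 : ℕ, (10 ≤ z ∧ q ≤ z) ∧ ∀ X : ℕ, X0 ≤ X →
      ‖∑ n ∈ SQ q r₀ X, Gf w v z (Nat.sqrt X) n‖ ≤ ε * X := by
  obtain ⟨D, hD⟩ := exists_nat_gt (4 / ε + 2)
  have h4 : 0 < 4 / ε := by positivity
  have hD0 : (0 : ℝ) < D := by linarith
  have hD1 : 1 ≤ D := by exact_mod_cast hD0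
  have hD2 : 2 ≤ D := by
    have : (2 : ℝ) ≤ D := by linarith
    exact_mod_cast this
  obtain ⟨M, hM⟩ : ∃ M, M = q * D.factorial ^ 2 := ⟨_, rfl⟩
  have hMq : q ≤ M := by
    rw [hM]
    exact Nat.le_mul_of_pos_right _ (pow_pos D.factorial_pos 2)
  have hM24 : 24 ≤ M := by
    have h5 : 2 ≤ D.factorial := hD2.trans (Nat.self_le_factorial D)
    have h6 : 2 ^ 2 ≤ D.factorial ^ 2 := Nat.pow_le_pow_left h5 2
    have h7 : 8 * 4 ≤ q * D.factorial ^ 2 := Nat.mul_le_mul hq (by omega)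
    omega
  obtain ⟨C3, hC30, hC3⟩ := hw2 M (by omega) hMq
  have hcl : ∀ r : ℕ, ∃ X0 : ℕ, (r < M ∧ 1 ≤ r) → ∀ X : ℕ, X0 ≤ X →
      ‖∑ n ∈ (Icc 1 X).filter (fun n => n % M = r), Gf w v M (Nat.sqrt X) n‖ ≤ ε / 2 * X / M := by
    intro r
    by_cases hr : r < M ∧ 1 ≤ r
    · obtain ⟨X0, h⟩ := cls_sum w c hc hwc v C3 hv hC30 M (by omega) hC3 M r (by omega) le_rfl
        hr.1 hr.2 (ε / 2) (by positivity)
      exact ⟨X0, fun _ => h⟩
    · exact ⟨0, fun h => absurd h hr⟩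
  choose X0 hX0 using hcl
  refine ⟨M, (range M).sup X0, ⟨by omega, hMq⟩, fun X hX => ?_⟩
  have hTD : ‖∑ n ∈ TD q r₀ D X, Gf w v M (Nat.sqrt X) n‖ ≤ ε / 2 * X := by
    have hmap : ∀ n ∈ TD q r₀ D X, n % M ∈ range M := fun n _ => mem_range.2 (Nat.mod_lt _ (by omega))
    rw [← sum_fiberwise_of_maps_to hmap]
    refine (norm_sum_le _ _).trans ?_
    have h1 : ∀ r ∈ range M, ‖∑ n ∈ (TD q r₀ D X).filter (fun n => n % M = r),
        Gf w v M (Nat.sqrt X) n‖ ≤ ε / 2 * X / M := by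
      intro r hr
      rw [mem_range] at hr
      have hmod : ∀ n : ℕ, n % M = r → (n % q = r₀ ↔ r % q = r₀) := by
        intro n hn
        rw [← hn, hM, Nat.mod_mul_right_mod]
      have hdiv : ∀ n : ℕ, n % M = r → ∀ p : ℕ, p.Prime → p ≤ D → (p ^ 2 ∣ n ↔ p ^ 2 ∣ r) := by
        intro n hn p hp hpD
        have h2 : p ^ 2 ∣ M := by
          rw [hM]
          exact (pow_dvd_pow_of_dvd (Nat.dvd_factorial hp.pos hpD) 2).mul_left _
        rw [← hn, Nat.dvd_mod_iff h2]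
      by_cases hR : r % q = r₀ ∧ ∀ p : ℕ, p.Prime → p ≤ D → ¬ p ^ 2 ∣ r
      · have e : (TD q r₀ D X).filter (fun n => n % M = r) = (Icc 1 X).filter (fun n => n % M = r) := by
          unfold TD
          ext n
          simp only [mem_filter]
          constructor
          · rintro ⟨⟨a1, a2⟩, a3⟩
            exact ⟨a1, a3⟩
          · rintro ⟨a1, a3⟩
            exact ⟨⟨a1, (hmod n a3).2 hR.1, fun p hp hpD hd =>
              hR.2 p hp hpD ((hdiv n a3 p hp hpD).1 hd)⟩, a3⟩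
        rw [e]
        have hr1 : 1 ≤ r := by
          rcases Nat.eq_zero_or_pos r with h0 | h0
          · exfalso
            have h2 := hR.1
            rw [h0, Nat.zero_mod] at h2
            omega
          · exact h0
        exact hX0 r ⟨hr, hr1⟩ X ((le_sup (mem_range.2 hr)).trans hX)
      · have e : (TD q r₀ D X).filter (fun n => n % M = r) = ∅ := by
          rw [filter_eq_empty_iff]
          intro n hn h
          apply hR
          unfold TD at hn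
          rw [mem_filter] at hn
          exact ⟨(hmod n h).1 hn.2.1, fun p hp hpD hd =>
            hn.2.2 p hp hpD ((hdiv n h p hp hpD).2 hd)⟩
        rw [e, sum_empty, norm_zero]
        positivity
    refine (sum_le_sum h1).trans (le_of_eq ?_)
    rw [sum_const, card_range, nsmul_eq_mul]
    have : (M : ℝ) ≠ 0 := by exact_mod_cast (by omega : M ≠ 0)
    field_simp
  have hdiff : ‖∑ n ∈ TD q r₀ D X \ SQ q r₀ X, Gf w v M (Nat.sqrt X) n‖ ≤ ε / 2 * X := by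
    refine (norm_sum_le _ _).trans ?_
    refine (sum_le_sum fun n _ => Gf_le w v hv M (Nat.sqrt X) n).trans ?_
    rw [sum_const, nsmul_eq_mul]
    have h1 := card_TD_sdiff q r₀ D X hD1
    have h2 : (X : ℝ) / D ≤ ε / 4 * X := by
      rw [div_le_iff₀ hD0]
      have h3 : 1 ≤ ε / 4 * D := by
        have h5 : 4 / ε ≤ D := by linarith
        rw [div_le_iff₀ hε] at h5
        linarith
      have h6 : (0 : ℝ) ≤ X := Nat.cast_nonneg X
      nlinarith
    linarith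
  have e : ∑ n ∈ SQ q r₀ X, Gf w v M (Nat.sqrt X) n = ∑ n ∈ TD q r₀ D X, Gf w v M (Nat.sqrt X) n -
      ∑ n ∈ TD q r₀ D X \ SQ q r₀ X, Gf w v M (Nat.sqrt X) n := by
    rw [← sum_sdiff (SQ_sub_TD q r₀ D X)]
    ring
  rw [e]
  refine (norm_sub_le _ _).trans ?_
  linarith

/-- the limit of the characteristic function -/
theorem sq_cf (q r₀ : ℕ) (hq : 8 ≤ q) (hr₀ : 1 ≤ r₀) (c0 : ℝ) (hc0 : 0 < c0) (X1 : ℕ)
    (hX1 : ∀ X : ℕ, X1 ≤ X → c0 * X ≤ ((SQ q r₀ X).card : ℝ)) (w : ℕ → ℝ) (c : ℝ) (hc : 1 ≤ c) (hwc : ∀ p, 2 * |w p| ≤ c) (μ v : ℝ) (hv : 0 ≤ v)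
    (hw1 : ∀ z : ℕ, 10 ≤ z → q ≤ z → ∃ C : ℝ, 0 ≤ C ∧ ∀ y : ℕ, z < y →
      |∑ p ∈ PS z y, w p * (1 / (p : ℝ)) - μ * Real.log (Real.log y)| ≤ C)
    (hw2 : ∀ z : ℕ, 10 ≤ z → q ≤ z → ∃ C : ℝ, 0 ≤ C ∧ ∀ y : ℕ, z < y →
      |∑ p ∈ PS z y, w p ^ 2 * (1 / (p : ℝ)) - v * ∑ p ∈ PS z y, 1 / (p : ℝ)| ≤ C) :
    Tendsto (fun X : ℕ => (∑ n ∈ SQ q r₀ X, cexp ((((∑ p ∈ n.primeFactors, w p -
      μ * Real.log (Real.log (Nat.sqrt X))) / √(Real.log (Real.log (Nat.sqrt X))) : ℝ) : ℂ) * I)) /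
        ((SQ q r₀ X).card : ℂ)) atTop (𝓝 ((Real.exp (-(v / 2)) : ℝ) : ℂ)) := by
  rw [Metric.tendsto_atTop]
  intro ε hε
  obtain ⟨z, X0, hz, hX0⟩ := sq_sum q r₀ hq hr₀ w c hc hwc v hv hw2 (ε * c0 / 4) (by positivity)
  obtain ⟨C, hC0, hC⟩ := hw1 z hz.1 hz.2
  obtain ⟨E, hE⟩ : ∃ E : ℝ, E = c * (z + 9) + C + 3 * |μ| := ⟨_, rfl⟩
  have hE0 : 0 ≤ E := by
    rw [hE]
    positivity
  obtain ⟨X2, hX2⟩ := big_ll ((4 * E / ε + 1) ^ 2)
  refine ⟨X0 + X1 + (X2 + (z + 1) ^ 4 + 81) ^ 2, fun X hX => ?_⟩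
  have hs : X2 + (z + 1) ^ 4 + 81 ≤ Nat.sqrt X := by
    rw [Nat.le_sqrt']
    omega
  have hX81 : 81 ^ 2 ≤ X := by
    rw [← Nat.le_sqrt']
    omega
  have hXpos : (0 : ℝ) < X := by
    have : 0 < X := by omega
    exact_mod_cast this
  have h1 := hX0 X (by omega)
  have h2 := hX1 X (by omega)
  have h3 := hX2 (Nat.sqrt X) (by omega)
  have hXz : z < yT (Nat.sqrt X) := yT_large z (by omega)
  obtain ⟨ℓ, hℓ⟩ : ∃ ℓ, ℓ = Real.log (Real.log (Nat.sqrt X)) := ⟨_, rfl⟩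
  rw [← hℓ] at h3 ⊢
  have h4 : 4 * E / ε + 1 ≤ √ℓ := Real.le_sqrt_of_sq_le h3
  have h40 : 0 ≤ 4 * E / ε := by positivity
  have hsl : 0 < √ℓ := by linarith
  have h5 : E / √ℓ ≤ ε / 4 := by
    rw [div_le_iff₀ hsl]
    have h6 : 4 * E / ε ≤ √ℓ := by linarith
    rw [div_le_iff₀ hε] at h6
    linarith
  have hcard : (0 : ℝ) < (SQ q r₀ X).card := lt_of_lt_of_le (by positivity) h2
  have hcardC : ((SQ q r₀ X).card : ℂ) ≠ 0 := by exact_mod_cast hcard.ne'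
  obtain ⟨Vf, hVf⟩ : ∃ Vf : ℕ → ℝ, Vf = fun n => (∑ p ∈ n.primeFactors, w p - μ * ℓ) / √ℓ :=
    ⟨_, rfl⟩
  have e1 : (∑ n ∈ SQ q r₀ X, cexp ((((∑ p ∈ n.primeFactors, w p - μ * ℓ) / √ℓ : ℝ) : ℂ) * I)) /
        ((SQ q r₀ X).card : ℂ) - ((Real.exp (-(v / 2)) : ℝ) : ℂ) =
      (∑ n ∈ SQ q r₀ X, Gf w v z (Nat.sqrt X) n + ∑ n ∈ SQ q r₀ X, (cexp ((Vf n : ℂ) * I) -
        cexp ((Af w z (Nat.sqrt X) n : ℂ) * I))) / ((SQ q r₀ X).card : ℂ) := by
    rw [← sum_add_distrib]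
    have e2 : ∀ n ∈ SQ q r₀ X, Gf w v z (Nat.sqrt X) n + (cexp ((Vf n : ℂ) * I) -
        cexp ((Af w z (Nat.sqrt X) n : ℂ) * I)) =
        cexp ((((∑ p ∈ n.primeFactors, w p - μ * ℓ) / √ℓ : ℝ) : ℂ) * I) -
          ((Real.exp (-(v / 2)) : ℝ) : ℂ) := by
      intro n _
      rw [hVf]
      unfold Gf
      ring
    rw [sum_congr rfl e2, sum_sub_distrib, sum_const, nsmul_eq_mul, sub_div,
      mul_div_cancel_left₀ _ hcardC]
  rw [dist_eq_norm, e1, norm_div, Complex.norm_natCast, div_lt_iff₀ hcard]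
  have h6 : ‖∑ n ∈ SQ q r₀ X, (cexp ((Vf n : ℂ) * I) - cexp ((Af w z (Nat.sqrt X) n : ℂ) * I))‖ ≤
      (SQ q r₀ X).card * (ε / 4) := by
    refine (norm_sum_le _ _).trans ?_
    rw [← nsmul_eq_mul, ← sum_const]
    refine sum_le_sum fun n hn => ?_
    refine (exp_I_lip _ _).trans (le_trans ?_ h5)
    have hn' := hn
    unfold SQ at hn'
    rw [mem_filter, mem_Icc] at hn'
    have h7 := pt_cmp w c hc hwc μ C z hC X n hn'.1.1 hn'.1.2 hX81 hXz
    rw [← hℓ, ← hE] at h7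
    have e2 : Vf n - Af w z (Nat.sqrt X) n = ((∑ p ∈ n.primeFactors, w p - μ * ℓ) -
      ∑ p ∈ PS z (yT (Nat.sqrt X)), w p * ((if p ∣ n then 1 else 0) - 1 / (p : ℝ))) / √ℓ := by
      rw [hVf]
      unfold Af
      rw [← hℓ, sub_div]
    rw [e2, abs_div, abs_of_pos hsl]
    exact div_le_div_of_nonneg_right h7 hsl.le
  have h8 : ε * c0 / 4 * X ≤ ε / 4 * (SQ q r₀ X).card := by
    have := mul_le_mul_of_nonneg_left h2 (by positivity : 0 ≤ ε / 4)
    linarith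
  have h9 : 0 < ε * (SQ q r₀ X).card := by positivity
  calc ‖_ + _‖ ≤ ε * c0 / 4 * X + (SQ q r₀ X).card * (ε / 4) :=
        (norm_add_le _ _).trans (add_le_add h1 h6)
    _ < ε * (SQ q r₀ X).card := by linarith


/-- sums of a function modulo `q` over the primes -/
theorem merM (q : ℕ) (hq : 1 ≤ q) (h : ℕ → ℝ) (hm : ∀ p, h (p % q) = h p) (z : ℕ) (hz : q ≤ z) :
    ∃ C : ℝ, 0 ≤ C ∧ ∀ y : ℕ, z < y → 3 ≤ y → |∑ p ∈ PS z y, h p * (1 / (p : ℝ)) -
      mn q h * Real.log (Real.log y)| ≤ C := by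
  obtain ⟨Q, hQ⟩ : ∃ Q : Finset ℕ, Q = (range q).filter fun a => Nat.Coprime a q := ⟨_, rfl⟩
  have hM : ∀ a : ℕ, ∃ C : ℝ, a ∈ Q → (0 ≤ C ∧ ∀ x : ℕ, 3 ≤ x →
      |∑ p ∈ (Icc 1 x).filter (fun p => p.Prime ∧ p % q = a), (1 : ℝ) / p -
        1 / (Nat.totient q : ℝ) * Real.log (Real.log x)| ≤ C) := by
    intro a
    by_cases ha : a ∈ Q
    · have ha' := ha
      rw [hQ, mem_filter, mem_range] at ha'
      obtain ⟨C, h0, hC⟩ := Pool.Agent.Y405.CQ.mertens_ap q hq a ha'.1 ha'.2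
      exact ⟨C, fun _ => ⟨h0, fun x hx => hC x hx⟩⟩
    · exact ⟨0, fun h' => absurd h' ha⟩
  choose C hC using hM
  obtain ⟨S, hS⟩ : ∃ S : ℕ → ℕ → ℝ, S = fun (a x : ℕ) =>
    ∑ p ∈ (Icc 1 x).filter (fun p : ℕ => p.Prime ∧ p % q = a), (1 : ℝ) / p := ⟨_, rfl⟩
  refine ⟨∑ a ∈ Q, |h a| * (C a + |S a z|), sum_nonneg fun a ha =>
    mul_nonneg (abs_nonneg _) (add_nonneg (hC a ha).1 (abs_nonneg _)), fun y hy hy3 => ?_⟩
  have hmap : ∀ p ∈ PS z y, p % q ∈ Q := by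
    intro p hp
    unfold PS at hp
    rw [mem_filter, mem_Ioc] at hp
    obtain ⟨⟨h1, h2⟩, h3⟩ := hp
    have h4 : ¬ p ∣ q := fun hd => by
      have := Nat.le_of_dvd (by omega) hd
      omega
    have h5 : Nat.Coprime p q := (Nat.Prime.coprime_iff_not_dvd h3).2 h4
    rw [hQ, mem_filter, mem_range]
    refine ⟨Nat.mod_lt _ (by omega), ?_⟩
    have h6 : Nat.gcd (p % q) q = 1 := by
      rw [← Nat.gcd_rec]
      exact h5.symm
    exact h6
  have e1 : ∑ p ∈ PS z y, h p * (1 / (p : ℝ)) = ∑ a ∈ Q, h a * (S a y - S a z) := by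
    rw [← sum_fiberwise_of_maps_to hmap]
    refine sum_congr rfl fun a _ => ?_
    have e2 : ∑ p ∈ (PS z y).filter (fun p => p % q = a), h p * (1 / (p : ℝ)) =
        h a * ∑ p ∈ (PS z y).filter (fun p => p % q = a), (1 / (p : ℝ)) := by
      rw [mul_sum]
      refine sum_congr rfl fun p hp => ?_
      rw [← hm p, (mem_filter.1 hp).2]
    rw [e2]
    congr 1
    rw [eq_sub_iff_add_eq, hS]
    simp only
    rw [← sum_union]
    · congr 1
      ext p
      unfold PS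
      simp only [mem_union, mem_filter, mem_Ioc, mem_Icc]
      constructor
      · rintro (⟨⟨⟨a1, a2⟩, a3⟩, a4⟩ | ⟨⟨a1, a2⟩, a3, a4⟩)
        · exact ⟨⟨by omega, a2⟩, a3, a4⟩
        · exact ⟨⟨a1, by omega⟩, a3, a4⟩
      · rintro ⟨⟨a1, a2⟩, a3, a4⟩
        by_cases hp : p ≤ z
        · exact Or.inr ⟨⟨a1, hp⟩, a3, a4⟩
        · exact Or.inl ⟨⟨⟨by omega, a2⟩, a3⟩, a4⟩
    · rw [disjoint_left]
      intro p h1 h2
      unfold PS at h1
      rw [mem_filter, mem_filter, mem_Ioc] at h1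
      rw [mem_filter, mem_Icc] at h2
      omega
  have e3 : mn q h * Real.log (Real.log y) =
      ∑ a ∈ Q, h a * (1 / (Nat.totient q : ℝ) * Real.log (Real.log y)) := by
    rw [← sum_mul, hQ]
    unfold mn
    ring
  rw [e1, e3, ← sum_sub_distrib]
  refine (abs_sum_le_sum_abs _ _).trans (sum_le_sum fun a ha => ?_)
  have e4 : h a * (S a y - S a z) - h a * (1 / (Nat.totient q : ℝ) * Real.log (Real.log y)) =
      h a * ((S a y - 1 / (Nat.totient q : ℝ) * Real.log (Real.log y)) - S a z) := by ring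
  rw [e4, abs_mul]
  refine mul_le_mul_of_nonneg_left ?_ (abs_nonneg _)
  refine (abs_sub _ _).trans (add_le_add ?_ le_rfl)
  have h1 := (hC a ha).2 y hy3
  rw [hS]
  exact h1

section gen

variable (q r₀ : ℕ) (hq : 8 ≤ q) (hr₀ : 1 ≤ r₀) (c0 : ℝ) (hcc0 : 0 < c0) (X1 : ℕ)
  (hX1' : ∀ X : ℕ, X1 ≤ X → c0 * X ≤ ((SQ q r₀ X).card : ℝ)) (n₀ : ℕ)
  (hn₀ : 1 ≤ n₀ ∧ Squarefree n₀ ∧ n₀ % q = r₀) (W : ℕ → ℝ) (c μ V : ℝ)

include hn₀ in
lemma SQ_nonempty (n : ℕ) : (SQ q r₀ (n + n₀)).Nonempty :=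
  ⟨n₀, mem_filter.2 ⟨mem_Icc.2 ⟨hn₀.1, by omega⟩, hn₀.2.1, hn₀.2.2⟩⟩

include hq hr₀ hcc0 hX1' hn₀

/-- the law with the normalization at the square root -/
lemma law_gen (hV0 : 0 < V) (hWc : ∀ p, |W p| ≤ c)
    (hw1 : ∀ z : ℕ, 10 ≤ z → q ≤ z → ∃ C : ℝ, 0 ≤ C ∧ ∀ y : ℕ, z < y →
      |∑ p ∈ PS z y, W p * (1 / (p : ℝ)) - μ * Real.log (Real.log y)| ≤ C)
    (hw2 : ∀ z : ℕ, 10 ≤ z → q ≤ z → ∃ C : ℝ, 0 ≤ C ∧ ∀ y : ℕ, z < y →
      |∑ p ∈ PS z y, W p ^ 2 * (1 / (p : ℝ)) - V * ∑ p ∈ PS z y, 1 / (p : ℝ)| ≤ C) (x : ℝ) :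
    Tendsto (fun X : ℕ =>
    (((SQ q r₀ X).filter fun n => (∑ p ∈ n.primeFactors, W p - μ * Real.log (Real.log (Nat.sqrt X))) /
      (√V * √(Real.log (Real.log (Nat.sqrt X)))) ≤ x).card : ℝ) /
        ((SQ q r₀ X).card : ℝ)) atTop (𝓝 ((gaussianReal 0 1).real (Set.Iic x))) := by
  have hsV : 0 < √V := Real.sqrt_pos.2 hV0
  have hsV2 : √V ^ 2 = V := Real.sq_sqrt hV0.le
  have hc0 : 0 ≤ c := (abs_nonneg _).trans (hWc 0)
  have key : ∀ θ : ℝ, Tendsto (fun X : ℕ => (∑ n ∈ SQ q r₀ X, cexp ((((∑ p ∈ n.primeFactors,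
      (θ / √V * W p) - (θ / √V * μ) * Real.log (Real.log (Nat.sqrt X))) /
        √(Real.log (Real.log (Nat.sqrt X))) : ℝ) : ℂ) * I)) /
        ((SQ q r₀ X).card : ℂ)) atTop (𝓝 ((Real.exp (-(θ ^ 2 / 2)) : ℝ) : ℂ)) := by
    intro θ
    refine sq_cf q r₀ hq hr₀ c0 hcc0 X1 hX1' (fun p => θ / √V * W p) (2 * (|θ / √V| * c) + 1) ?_ ?_
      (θ / √V * μ) (θ ^ 2) (sq_nonneg _) ?_ ?_
    · have : 0 ≤ |θ / √V| * c := by positivity
      linarith
    · intro p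
      rw [abs_mul]
      have h1 := mul_le_mul_of_nonneg_left (hWc p) (abs_nonneg (θ / √V))
      linarith
    · intro z hz hz'
      obtain ⟨C, hC0, hC⟩ := hw1 z hz hz'
      refine ⟨|θ / √V| * C, by positivity, fun y hy => ?_⟩
      have e : ∑ p ∈ PS z y, θ / √V * W p * (1 / (p : ℝ)) - θ / √V * μ * Real.log (Real.log y) =
          θ / √V * (∑ p ∈ PS z y, W p * (1 / (p : ℝ)) - μ * Real.log (Real.log y)) := by
        rw [mul_sub, mul_sum]
        congr 1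
        · exact sum_congr rfl fun p _ => by ring
        · ring
      rw [e, abs_mul]
      exact mul_le_mul_of_nonneg_left (hC y hy) (abs_nonneg _)
    · intro z hz hz'
      obtain ⟨C, hC0, hC⟩ := hw2 z hz hz'
      refine ⟨(θ / √V) ^ 2 * C, by positivity, fun y hy => ?_⟩
      have e : ∑ p ∈ PS z y, (θ / √V * W p) ^ 2 * (1 / (p : ℝ)) -
          θ ^ 2 * ∑ p ∈ PS z y, 1 / (p : ℝ) =
          (θ / √V) ^ 2 * (∑ p ∈ PS z y, W p ^ 2 * (1 / (p : ℝ)) -
            V * ∑ p ∈ PS z y, 1 / (p : ℝ)) := by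
        have e1 : ∑ p ∈ PS z y, (θ / √V * W p) ^ 2 * (1 / (p : ℝ)) =
            (θ / √V) ^ 2 * ∑ p ∈ PS z y, W p ^ 2 * (1 / (p : ℝ)) := by
          rw [mul_sum]
          exact sum_congr rfl fun p _ => by ring
        have e2 : (θ / √V) ^ 2 * V = θ ^ 2 := by
          rw [div_pow, hsV2]
          field_simp
        rw [e1, mul_sub, ← mul_assoc, e2]
      rw [e, abs_mul, abs_of_nonneg (sq_nonneg _)]
      exact mul_le_mul_of_nonneg_left (hC y hy) (sq_nonneg _)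
  have h := Pool.Agent.R421.EK.law_of (ι := Unit) (fun n => SQ q r₀ (n + n₀)) (SQ_nonempty q r₀ n₀ hn₀)
    (fun n m _ => (∑ p ∈ m.primeFactors, W p -
      μ * Real.log (Real.log (Nat.sqrt (n + n₀)))) /
      (√V * √(Real.log (Real.log (Nat.sqrt (n + n₀)))))) (fun θ => by
      have h1 := (key (θ ())).comp (tendsto_add_atTop_nat n₀)
      have e : -(∑ i, θ i ^ 2) / 2 = -((θ ()) ^ 2 / 2) := by
        rw [Fintype.sum_unique]
        have : (default : Unit) = () := rfl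
        rw [this]
        ring
      rw [e]
      refine h1.congr fun n => ?_
      simp only [Function.comp_apply]
      congr 1
      refine sum_congr rfl fun m _ => ?_
      congr 3
      rw [Fintype.sum_unique, ← mul_sum]
      have : (default : Unit) = () := rfl
      rw [this]
      rw [mul_comm (√V), ← div_div]
      ring) (fun _ => x)
  rw [Fintype.prod_unique] at h
  rw [← tendsto_add_atTop_iff_nat n₀]
  refine h.congr fun n => ?_
  congr 2
  refine congrArg _ (filter_congr fun m _ => ?_)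
  constructor
  · exact fun h1 => h1 ()
  · exact fun h1 _ => h1

/-- the Gaussian law for general weights -/
theorem gauss_gen (hV0 : 0 < V) (hWc : ∀ p, |W p| ≤ c)
    (hw1 : ∀ z : ℕ, 10 ≤ z → q ≤ z → ∃ C : ℝ, 0 ≤ C ∧ ∀ y : ℕ, z < y →
      |∑ p ∈ PS z y, W p * (1 / (p : ℝ)) - μ * Real.log (Real.log y)| ≤ C)
    (hw2 : ∀ z : ℕ, 10 ≤ z → q ≤ z → ∃ C : ℝ, 0 ≤ C ∧ ∀ y : ℕ, z < y →
      |∑ p ∈ PS z y, W p ^ 2 * (1 / (p : ℝ)) - V * ∑ p ∈ PS z y, 1 / (p : ℝ)| ≤ C) (t : ℝ) :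
    Tendsto (fun X : ℕ => (((SQ q r₀ X).filter fun n => ∑ p ∈ n.primeFactors, W p ≤
      μ * Real.log (Real.log X) + t * √(V * Real.log (Real.log X))).card : ℝ) /
        ((SQ q r₀ X).card : ℝ)) atTop (𝓝 ((gaussianReal 0 1).real (Set.Iic t))) := by
  have hlaw := law_gen q r₀ hq hr₀ c0 hcc0 X1 hX1' n₀ hn₀ W c μ V hV0 hWc hw1 hw2
  have hsV : 0 < √V := Real.sqrt_pos.2 hV0
  -- the comparison of the thresholds
  have hthr : ∀ δ : ℝ, 0 < δ → ∀ᶠ X : ℕ in atTop, 0 < Real.log (Real.log (Nat.sqrt X)) ∧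
      |μ * Real.log (Real.log X) + t * √(V * Real.log (Real.log X)) -
        (μ * Real.log (Real.log (Nat.sqrt X)) +
          t * (√V * √(Real.log (Real.log (Nat.sqrt X)))))| ≤
        δ * (√V * √(Real.log (Real.log (Nat.sqrt X)))) := by
    intro δ hδ
    obtain ⟨E, hE⟩ : ∃ E : ℝ, E = (|μ| * 2 + |t| * √V * 2) / (δ * √V) := ⟨_, rfl⟩
    have hE0 : 0 ≤ E := by
      rw [hE]
      positivity
    obtain ⟨X1, hX1⟩ := Pool.Agent.R421.NR.big_ll ((E + 1) ^ 2)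
    rw [eventually_atTop]
    refine ⟨(X1 + 9) ^ 2, fun X hX => ?_⟩
    have hs : X1 + 9 ≤ Nat.sqrt X := by
      rw [Nat.le_sqrt']
      exact hX
    have hX9 : 9 ≤ X := by
      have := Nat.sqrt_le_self X
      omega
    have h1 := hX1 (Nat.sqrt X) (by omega)
    obtain ⟨h2, h3⟩ := ll_cmp X hX9
    generalize Real.log (Real.log (Nat.sqrt X)) = ℓ at h1 h2 h3 ⊢
    generalize Real.log (Real.log (X : ℝ)) = L at h2 h3 ⊢
    have hsl : E + 1 ≤ √ℓ := Real.le_sqrt_of_sq_le h1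
    have hsl1 : 1 ≤ √ℓ := by linarith
    have hℓ0 : 0 < ℓ := by nlinarith
    have hsq : √ℓ ^ 2 = ℓ := Real.sq_sqrt hℓ0.le
    have hsq' : √L ^ 2 = L := Real.sq_sqrt (by linarith)
    have hle : √ℓ ≤ √L := Real.sqrt_le_sqrt h2
    have hdiff : √L - √ℓ ≤ 2 := by
      have h4 : (√L - √ℓ) * (√L + √ℓ) ≤ 2 := by nlinarith
      nlinarith
    refine ⟨hℓ0, ?_⟩
    rw [Real.sqrt_mul hV0.le]
    have e : μ * L + t * (√V * √L) - (μ * ℓ + t * (√V * √ℓ)) =
        μ * (L - ℓ) + t * √V * (√L - √ℓ) := by ring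
    rw [e]
    have h5 : |μ * (L - ℓ) + t * √V * (√L - √ℓ)| ≤ |μ| * 2 + |t| * √V * 2 := by
      refine (abs_add_le _ _).trans (add_le_add ?_ ?_)
      · rw [abs_mul, abs_of_nonneg (a := L - ℓ) (by linarith)]
        exact mul_le_mul_of_nonneg_left (by linarith) (abs_nonneg _)
      · rw [abs_mul, abs_mul, abs_of_pos hsV, abs_of_nonneg (a := √L - √ℓ) (by linarith)]
        exact mul_le_mul_of_nonneg_left hdiff (by positivity)
    refine h5.trans ?_
    have h6 : E * (δ * √V) = |μ| * 2 + |t| * √V * 2 := by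
      rw [hE]
      field_simp
    rw [← h6]
    have h7 : 0 < δ * √V := by positivity
    nlinarith
  have hup : ∀ δ : ℝ, 0 < δ → ∀ᶠ X : ℕ in atTop,
      (((SQ q r₀ X).filter fun n => ∑ p ∈ n.primeFactors, W p ≤ μ * Real.log (Real.log X) +
        t * √(V * Real.log (Real.log X))).card : ℝ) / ((SQ q r₀ X).card : ℝ) ≤
      (((SQ q r₀ X).filter fun n => (∑ p ∈ n.primeFactors, W p -
        μ * Real.log (Real.log (Nat.sqrt X))) /
        (√V * √(Real.log (Real.log (Nat.sqrt X)))) ≤ t + δ).card : ℝ) / ((SQ q r₀ X).card : ℝ) := by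
    intro δ hδ
    filter_upwards [hthr δ hδ] with X ⟨h1, h2⟩
    refine div_le_div_of_nonneg_right ?_ (Nat.cast_nonneg _)
    have h3 : (SQ q r₀ X).filter (fun n => ∑ p ∈ n.primeFactors, W p ≤ μ * Real.log (Real.log X) +
        t * √(V * Real.log (Real.log X))) ⊆ (SQ q r₀ X).filter (fun n => (∑ p ∈ n.primeFactors, W p -
        μ * Real.log (Real.log (Nat.sqrt X))) /
        (√V * √(Real.log (Real.log (Nat.sqrt X)))) ≤ t + δ) := by
      intro n hn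
      rw [mem_filter] at hn ⊢
      refine ⟨hn.1, ?_⟩
      have h4 : 0 < √V * √(Real.log (Real.log (Nat.sqrt X))) :=
        mul_pos hsV (Real.sqrt_pos.2 h1)
      rw [div_le_iff₀ h4]
      have h5 := hn.2
      have h6 := (abs_le.1 h2).2
      linarith
    exact_mod_cast card_le_card h3
  have hlo : ∀ δ : ℝ, 0 < δ → ∀ᶠ X : ℕ in atTop,
      (((SQ q r₀ X).filter fun n => (∑ p ∈ n.primeFactors, W p -
        μ * Real.log (Real.log (Nat.sqrt X))) /
        (√V * √(Real.log (Real.log (Nat.sqrt X)))) ≤ t - δ).card : ℝ) / ((SQ q r₀ X).card : ℝ) ≤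
      (((SQ q r₀ X).filter fun n => ∑ p ∈ n.primeFactors, W p ≤ μ * Real.log (Real.log X) +
        t * √(V * Real.log (Real.log X))).card : ℝ) / ((SQ q r₀ X).card : ℝ) := by
    intro δ hδ
    filter_upwards [hthr δ hδ] with X ⟨h1, h2⟩
    refine div_le_div_of_nonneg_right ?_ (Nat.cast_nonneg _)
    have h3 : (SQ q r₀ X).filter (fun n => (∑ p ∈ n.primeFactors, W p -
        μ * Real.log (Real.log (Nat.sqrt X))) /
        (√V * √(Real.log (Real.log (Nat.sqrt X)))) ≤ t - δ) ⊆ (SQ q r₀ X).filter (fun n =>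
        ∑ p ∈ n.primeFactors, W p ≤ μ * Real.log (Real.log X) +
        t * √(V * Real.log (Real.log X))) := by
      intro n hn
      rw [mem_filter] at hn ⊢
      refine ⟨hn.1, ?_⟩
      have h4 : 0 < √V * √(Real.log (Real.log (Nat.sqrt X))) :=
        mul_pos hsV (Real.sqrt_pos.2 h1)
      have h5 := hn.2
      rw [div_le_iff₀ h4] at h5
      have h6 := (abs_le.1 h2).1
      linarith
    exact_mod_cast card_le_card h3
  rw [tendsto_order]
  constructor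
  · intro a ha
    have h1 : ∀ᶠ x in 𝓝 t, a < (gaussianReal 0 1).real (Set.Iic x) :=
      gauss_cont.continuousAt.eventually (lt_mem_nhds ha)
    obtain ⟨r, hr, hball⟩ := Metric.eventually_nhds_iff.1 h1
    have h2 : a < (gaussianReal 0 1).real (Set.Iic (t - r / 2)) := by
      apply hball
      rw [Real.dist_eq, abs_lt]
      constructor <;> linarith
    filter_upwards [(hlaw (t - r / 2)).eventually (lt_mem_nhds h2), hlo (r / 2) (by positivity)]
      with X h3 h4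
    exact h3.trans_le h4
  · intro b hb
    have h1 : ∀ᶠ x in 𝓝 t, (gaussianReal 0 1).real (Set.Iic x) < b :=
      gauss_cont.continuousAt.eventually (gt_mem_nhds hb)
    obtain ⟨r, hr, hball⟩ := Metric.eventually_nhds_iff.1 h1
    have h2 : (gaussianReal 0 1).real (Set.Iic (t + r / 2)) < b := by
      apply hball
      rw [Real.dist_eq, abs_lt]
      constructor <;> linarith
    filter_upwards [(hlaw (t + r / 2)).eventually (gt_mem_nhds h2), hup (r / 2) (by positivity)]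
      with X h3 h4
    exact h4.trans_lt h3

end gen


/-- **(GLM)** the Gaussian law in one class prime to the modulus -/
theorem t_GLM : S_GLM := by
  intro M r hM8 hM0 hrM hcop h t hm hpos
  have hM : 8 ≤ M := Nat.le_of_dvd hM0 hM8
  have hr1 : 1 ≤ r := by
    rcases Nat.eq_zero_or_pos r with h0 | h0
    · exfalso
      rw [h0, Nat.coprime_zero_left] at hcop
      omega
    · exact h0
  obtain ⟨n₀, hn₀⟩ : ∃ n₀ : ℕ, 1 ≤ n₀ ∧ Squarefree n₀ ∧ n₀ % M = r := by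
    haveI : NeZero M := ⟨by omega⟩
    obtain ⟨p, _, hp, hpr⟩ := Nat.forall_exists_prime_gt_and_eq_mod
      ((ZMod.isUnit_iff_coprime r M).2 hcop) 0
    refine ⟨p, hp.one_lt.le, hp.prime.squarefree, ?_⟩
    have h1 := (ZMod.natCast_eq_natCast_iff' p r M).1 hpr
    rw [h1, Nat.mod_eq_of_lt hrM]
  obtain ⟨c0, X1, hc0, hX1⟩ := Pool.Agent.N916.AM.low (M := M) (n₀ := n₀) hM0
    ((by norm_num : (2 : ℕ) ∣ 8).trans hM8) hn₀.2.1
  rw [hn₀.2.2] at hX1
  have hbd : ∀ p, |h p| ≤ ∑ a ∈ range M, |h a| := by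
    intro p
    rw [← hm p]
    exact single_le_sum (f := fun a => |h a|) (fun a _ => abs_nonneg _)
      (mem_range.2 (Nat.mod_lt _ hM0))
  have hone : mn M (fun _ => 1) = 1 := by
    unfold mn
    rw [sum_const, nsmul_eq_mul, mul_one]
    have e : ((range M).filter fun a => Nat.Coprime a M).card = Nat.totient M := by
      rw [Nat.totient_eq_card_coprime]
      congr 1
      ext a
      rw [mem_filter, mem_filter, Nat.coprime_comm]
    rw [e]
    have : (0 : ℝ) < Nat.totient M := by exact_mod_cast Nat.totient_pos.2 hM0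
    exact div_self this.ne'
  have hmain := gauss_gen M r hM hr1 c0 hc0 X1 (fun X hX => by
      have := hX1 X hX
      unfold SQ
      exact this) n₀ hn₀ h (∑ a ∈ range M, |h a|) (mn M h)
    (mn M fun a => h a ^ 2) hpos hbd
    (by
      intro z hz hz'
      obtain ⟨C, hC0, hC⟩ := merM M (by omega) h hm z hz'
      exact ⟨C, hC0, fun y hy => hC y hy (by omega)⟩)
    (by
      intro z hz hz'
      obtain ⟨C, hC0, hC⟩ := merM M (by omega) (fun p => h p ^ 2) (fun p => by simp only [hm]) z hz'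
      obtain ⟨C', hC'0, hC'⟩ := merM M (by omega) (fun _ => 1) (fun _ => rfl) z hz'
      refine ⟨C + (mn M fun a => h a ^ 2) * C', by positivity, fun y hy => ?_⟩
      have h1 := hC y hy (by omega)
      have h2 := hC' y hy (by omega)
      rw [hone] at h2
      generalize (mn M fun a => h a ^ 2) = V at *
      have e2 : ∑ p ∈ PS z y, h p ^ 2 * (1 / (p : ℝ)) -
          V * ∑ p ∈ PS z y, 1 / (p : ℝ) =
          (∑ p ∈ PS z y, h p ^ 2 * (1 / (p : ℝ)) - V * Real.log (Real.log y)) -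
          V * (∑ p ∈ PS z y, 1 / (p : ℝ) - Real.log (Real.log y)) := by ring
      rw [e2]
      refine (abs_sub _ _).trans (add_le_add h1 ?_)
      rw [abs_mul, abs_of_pos hpos]
      refine mul_le_mul_of_nonneg_left ?_ hpos.le
      simpa using h2) t
  refine hmain.congr fun X => ?_
  unfold SQ
  rw [filter_filter]
  simp only [mem_singleton]

end Pool.Agent.N427.IL
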